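import Pool.Agent.P8H41.PK.Stm

/-!
# Project PK (helper41), package ALPH: finite alphabets
-/

set_option autoImplicit false

namespace Pool.Agent.P8H88.PK

open Filter Topology
open Pool.Agent.P8H41.PK

theorem floor_term {K x η : ℝ} (hK : 1 ≤ K) (hη : 4 ≤ η * K ^ 2) :
    ((⌊K * x⌋ : ℝ) / K - x) ^ 2 ≤ η / 4 := by
  have hK0 : 0 < K := by linarith
  have h1 := Int.floor_le (K * x)
  have h2 := Int.lt_floor_add_one (K * x)
  have h3 : ((⌊K * x⌋ : ℝ) / K - x) = (⌊K * x⌋ - K * x) / K := by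
    field_simp
  rw [h3, div_pow]
  have h4 : ((⌊K * x⌋ : ℝ) - K * x) ^ 2 ≤ 1 := by
    have h5 : -1 ≤ (⌊K * x⌋ : ℝ) - K * x := by linarith
    have h6 : (⌊K * x⌋ : ℝ) - K * x ≤ 1 := by linarith
    nlinarith
  rw [div_le_iff₀ (by positivity)]
  linarith

theorem floor_abs {K : ℕ} {x : ℝ} (hx : |x| ≤ K) : |⌊(K : ℝ) * x⌋| ≤ ((K ^ 2 + 1 : ℕ) : ℤ) := by
  have h1 := Int.floor_le ((K : ℝ) * x)
  have h2 := Int.lt_floor_add_one ((K : ℝ) * x)
  have hK : (0 : ℝ) ≤ K := Nat.cast_nonneg K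
  obtain ⟨h3, h4⟩ := abs_le.1 hx
  have h5 : (K : ℝ) * x ≤ K ^ 2 := by nlinarith
  have h6 : -(K : ℝ) ^ 2 ≤ K * x := by nlinarith
  rw [abs_le]
  constructor
  · have : -(((K ^ 2 + 1 : ℕ) : ℤ) : ℝ) ≤ (⌊(K : ℝ) * x⌋ : ℝ) := by
      push_cast
      linarith
    exact_mod_cast this
  · have : (⌊(K : ℝ) * x⌋ : ℝ) ≤ (((K ^ 2 + 1 : ℕ) : ℤ) : ℝ) := by
      push_cast
      linarith
    exact_mod_cast this

theorem alph : S_ALPH := by
  intro htail g hg η hη
  obtain ⟨M₀, hM₀, htl⟩ := htail g hg (η / 4) (by positivity)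
  obtain ⟨K, hK⟩ := exists_nat_ge (max (max 1 M₀) (4 / η))
  have hK1 : (1 : ℝ) ≤ K := (le_max_left _ _).trans ((le_max_left _ _).trans hK)
  have hKM : M₀ ≤ K := (le_max_right _ _).trans ((le_max_left _ _).trans hK)
  have hKη : 4 / η ≤ K := (le_max_right _ _).trans hK
  have h4 : 4 ≤ η * (K : ℝ) ^ 2 := by
    rw [div_le_iff₀ hη] at hKη
    nlinarith [mul_nonneg hη.le (sub_nonneg.2 hK1)]
  refine ⟨K, K ^ 2 + 1, by exact_mod_cast hK1, ?_⟩
  filter_upwards [htl K hKM] with n hn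
  classical
  refine ⟨fun i => if |g n i| ≤ K then ⌊(K : ℝ) * g n i⌋ else 0, fun i => ?_, ?_⟩
  · by_cases h : |g n i| ≤ K
    · simp only [h, if_true]
      exact floor_abs h
    · simp only [h, if_false, abs_zero]
      positivity
  · have hterm : ∀ i : Fin n, ((((if |g n i| ≤ K then ⌊(K : ℝ) * g n i⌋ else 0 : ℤ)) : ℝ) / K - g n i) ^ 2
        ≤ η / 4 + tl K (g n i) := by
      intro i
      by_cases h : |g n i| ≤ K
      · simp only [h, if_true, tl, add_zero]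
        exact floor_term hK1 h4
      · simp only [h, if_false, tl, Int.cast_zero, zero_div, zero_sub, neg_sq]
        linarith
    calc ∑ i : Fin n, ((((if |g n i| ≤ K then ⌊(K : ℝ) * g n i⌋ else 0 : ℤ)) : ℝ) / K - g n i) ^ 2
        ≤ ∑ i : Fin n, (η / 4 + tl K (g n i)) := Finset.sum_le_sum fun i _ => hterm i
      _ = n * (η / 4) + ∑ i : Fin n, tl K (g n i) := by
          rw [Finset.sum_add_distrib]
          simp
      _ ≤ n * (η / 4) + η / 4 * n := by linarith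
      _ ≤ η * n := by
          have : (0 : ℝ) ≤ n := Nat.cast_nonneg n
          nlinarith

end Pool.Agent.P8H88.PK
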