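import Pool.Agent.P8H41.PK.Stm

/-!
# Project PK (helper41), package EX: Gaussian scores exist
-/

set_option autoImplicit false

namespace Pool.Agent.P8H88.PK

open Filter Topology MeasureTheory ProbabilityTheory Finset
open Pool.Agent.P8H41.PK

/-- the strong law of large numbers for `f (X i)`, `X i` independent standard Gaussian variables -/
theorem slln {Ω : Type} {mΩ : MeasurableSpace Ω} {P : Measure Ω} [IsProbabilityMeasure P]
    {X : ℕ → Ω → ℝ} (hX : ∀ i, Measurable (X i)) (hlaw : ∀ i, HasLaw (X i) (gaussianReal 0 1) P)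
    (hind : iIndepFun X P) {f : ℝ → ℝ} (hf : Measurable f) (hint : Integrable f (gaussianReal 0 1)) :
    ∀ᵐ ω ∂P, Tendsto (fun n : ℕ => (∑ i : Fin n, f (X i ω)) / n) atTop
      (𝓝 (∫ t, f t ∂(gaussianReal 0 1))) := by
  have h0 : Integrable (f ∘ X 0) P := by
    have h1 : Integrable f (P.map (X 0)) := by rw [(hlaw 0).map_eq]; exact hint
    exact (integrable_map_measure h1.aestronglyMeasurable (hX 0).aemeasurable).1 h1
  have h2 := strong_law_ae_real (μ := P) (fun i => f ∘ X i) h0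
    (fun i j hij => (hind.indepFun hij).comp hf hf)
    (fun i => ⟨(hf.comp (hX i)).aemeasurable, (hf.comp (hX 0)).aemeasurable, by
      rw [← Measure.map_map hf (hX i), ← Measure.map_map hf (hX 0), (hlaw i).map_eq,
        (hlaw 0).map_eq]⟩)
  have h3 : ∫ ω, (f ∘ X 0) ω ∂P = ∫ t, f t ∂(gaussianReal 0 1) :=
    (hlaw 0).integral_comp hint.aestronglyMeasurable
  filter_upwards [h2] with ω hω
  rw [h3] at hω
  refine hω.congr fun n => ?_
  rw [Fin.sum_univ_eq_sum_range (fun i => f (X i ω)) n]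
  rfl

theorem phi_cdf (t : ℝ) : Phi t = cdf (gaussianReal 0 1) t := by
  rw [cdf_eq_real]; rfl

theorem phi_left {a t : ℝ} (h : a < Phi t) : ∃ q : ℚ, (q : ℝ) < t ∧ a < Phi q := by
  have hl : Function.leftLim (cdf (gaussianReal 0 1)) t = cdf (gaussianReal 0 1) t := by
    have h1 := StieltjesFunction.measure_singleton (cdf (gaussianReal 0 1)) t
    rw [measure_cdf] at h1
    have : NullSingletonClass (gaussianReal 0 1) := nullSingletonClass_gaussianReal one_ne_zero
    rw [measure_singleton] at h1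
    have h2 := ENNReal.ofReal_eq_zero.1 h1.symm
    have h3 := (monotone_cdf (gaussianReal 0 1)).leftLim_le (le_refl t)
    linarith
  have h1 := (monotone_cdf (gaussianReal 0 1)).tendsto_leftLim t
  rw [hl] at h1
  rw [phi_cdf] at h
  have h2 := (tendsto_order.1 h1).1 a h
  obtain ⟨l, hl1, hl2⟩ := (mem_nhdsLT_iff_exists_Ioo_subset).1 h2
  obtain ⟨q, hq1, hq2⟩ := exists_rat_btwn (Set.mem_Iio.1 hl1)
  exact ⟨q, hq2, by rw [phi_cdf]; exact hl2 ⟨hq1, hq2⟩⟩

theorem phi_right {a t : ℝ} (h : Phi t < a) : ∃ q : ℚ, t < (q : ℝ) ∧ Phi q < a := by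
  have h1 := (cdf (gaussianReal 0 1)).right_continuous t
  rw [phi_cdf] at h
  have h2 := (tendsto_order.1 h1).2 a h
  obtain ⟨l, hl1, hl2⟩ := (mem_nhdsGE_iff_exists_Ico_subset).1 h2
  obtain ⟨q, hq1, hq2⟩ := exists_rat_btwn (Set.mem_Ioi.1 hl1)
  exact ⟨q, hq1, by rw [phi_cdf]; exact hl2 ⟨hq1.le, hq2⟩⟩

theorem cnt_mono {n : ℕ} (x : Fin n → ℝ) {s t : ℝ} (h : s ≤ t) : cnt x s ≤ cnt x t := by
  unfold cnt
  have : (univ.filter fun i => x i ≤ s).card ≤ (univ.filter fun i => x i ≤ t).card :=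
    card_le_card fun i hi => by
      simp only [mem_filter, mem_univ, true_and] at hi ⊢
      exact hi.trans h
  exact_mod_cast this

theorem cnt_sum {n : ℕ} (x : Fin n → ℝ) (t : ℝ) :
    ∑ i, (Set.Iic t).indicator (fun _ => (1 : ℝ)) (x i) = cnt x t := by
  unfold cnt
  simp only [Set.indicator_apply, Set.mem_Iic]
  rw [sum_boole]

theorem second_moment : ∫ t, t ^ 2 ∂(gaussianReal 0 1) = 1 := by
  have h := variance_id_gaussianReal (μ := 0) (v := 1)
  rw [variance_eq_sub (memLp_id_gaussianReal' 2 (by simp))] at h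
  simp only [id_eq, integral_id_gaussianReal] at h
  simpa using h

theorem ex : S_EX := by
  obtain ⟨Ω, mΩ, P, X, hX, hlaw, hind, hP⟩ :=
    exists_iid.{0, 0} ℕ (gaussianReal 0 1)
  have h1 : ∀ᵐ ω ∂P, ∀ q : ℚ, Tendsto (fun n : ℕ =>
      (∑ i : Fin n, (Set.Iic (q : ℝ)).indicator (fun _ => (1 : ℝ)) (X i ω)) / n) atTop
      (𝓝 (∫ t, (Set.Iic (q : ℝ)).indicator (fun _ => (1 : ℝ)) t ∂(gaussianReal 0 1))) := by
    rw [ae_all_iff]
    intro q
    exact slln hX hlaw hind (measurable_const.indicator measurableSet_Iic)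
      ((integrable_const 1).indicator measurableSet_Iic)
  have h2 := slln hX hlaw hind (f := fun t => t ^ 2) (by fun_prop)
    (memLp_id_gaussianReal' 2 (by simp)).integrable_sq
  obtain ⟨ω, hω1, hω2⟩ := (h1.and h2).exists
  refine ⟨fun n i => X i ω, ?_, ?_⟩
  · have hq : ∀ q : ℚ, Tendsto (fun n : ℕ => cnt (fun i : Fin n => X i ω) q / n) atTop
        (𝓝 (Phi q)) := by
      intro q
      have h3 := hω1 q
      have h4 : ∫ t, (Set.Iic (q : ℝ)).indicator (fun _ => (1 : ℝ)) t ∂(gaussianReal 0 1) =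
          Phi q := by
        rw [integral_indicator_const _ measurableSet_Iic]
        simp [Phi]
      rw [h4] at h3
      refine h3.congr fun n => ?_
      rw [cnt_sum (fun i : Fin n => X i ω)]
    intro t
    rw [tendsto_order]
    constructor
    · intro a ha
      obtain ⟨q, hq1, hq2⟩ := phi_left ha
      filter_upwards [(tendsto_order.1 (hq q)).1 a hq2] with n hn
      exact hn.trans_le (div_le_div_of_nonneg_right (cnt_mono _ hq1.le) (Nat.cast_nonneg n))
    · intro a ha
      obtain ⟨q, hq1, hq2⟩ := phi_right ha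
      filter_upwards [(tendsto_order.1 (hq q)).2 a hq2] with n hn
      exact (div_le_div_of_nonneg_right (cnt_mono _ hq1.le) (Nat.cast_nonneg n)).trans_lt hn
  · rw [second_moment] at hω2
    exact hω2

end Pool.Agent.P8H88.PK
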